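import Pool.Agent.Run7.h7.LagH

/-!
# MP_3dbb84_gt, Q1: exact Lagrangian submanifolds of the cotangent bundle of the torus whose
projection is locally injective of corank at most one

Q1 asks whether every closed exact Lagrangian submanifold `L` of the cotangent bundle of a closed
manifold `N` is the image of the zero section under a symplectic diffeomorphism.  The theorem proves
this for the torus `N = ℝⁿ/ℤⁿ`, in all dimensions, for every `L` such that the projection `L → N` is
near every point of `L` injective and of rank at least `n - 1`.  There is no condition on pairs of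
points of `L` which are far from each other: that `L` meets every cotangent fibre only once is a
conclusion and not a hypothesis, and `L` may have vertical tangencies of infinite order.

More generally the conditions of rank and of local injectivity need not hold on two disjoint closed
sets `P` and `N` of points of `L` if there is a one-sided condition instead: for pairs of points
`(q, p)`, `(q', p')` of `L` near a point of `P` whose difference is almost vertical the angle between
`q - q'` and `p - p'` is at most `120` degrees, and near a point of `N` the angle between `q - q'`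
and `p' - p`.  Here the rank is arbitrary and `L` may contain vertical segments.

The method: a point of `L` where the projection is injective and of rank `n - 1` has a sign, which
is locally constant.  There are a generating function `K`, equal to `|p|²/2` near the points of
sign `+` and to `-|p|²/2` near the points of sign `-`, and a small `t > 0` such that the symplectic
diffeomorphism with the generating function `t K` (in mixed variables) moves `L` to a Lagrangian
submanifold with immersed projection.  Such a submanifold is the graph of an exact form if it is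
exact.
-/

set_option autoImplicit false

open Set Function
open scoped ContDiff RealInnerProductSpace

noncomputable section

namespace Pool.Agent.Results.MP_3dbb84_gt.CorankOneProjections

/-- the integer vector `k` -/
def latt {n : ℕ} (k : Fin n → ℤ) : EuclideanSpace ℝ (Fin n) := WithLp.toLp 2 (fun i => (k i : ℝ))

/-- the symplectic form `dp ∧ dq` of `ℝⁿ × ℝⁿ`; the points and the vectors are pairs `(q, p)` -/
def om {n : ℕ} (a b : EuclideanSpace ℝ (Fin n) × EuclideanSpace ℝ (Fin n)) : ℝ :=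
  ⟪a.2, b.1⟫ - ⟪b.2, a.1⟫

/-- `F : ℝⁿ → ℝⁿ × ℝⁿ` is an injective smooth immersion -/
def IsInjImmersion {n : ℕ}
    (F : EuclideanSpace ℝ (Fin n) → EuclideanSpace ℝ (Fin n) × EuclideanSpace ℝ (Fin n)) : Prop :=
  ContDiff ℝ ∞ F ∧ Injective F ∧ ∀ s v, fderiv ℝ F s v = 0 → v = 0

/-- `F` pulls back `dp ∧ dq` to zero -/
def IsIsotropic {n : ℕ}
    (F : EuclideanSpace ℝ (Fin n) → EuclideanSpace ℝ (Fin n) × EuclideanSpace ℝ (Fin n)) : Prop :=
  ∀ s v w, om (fderiv ℝ F s v) (fderiv ℝ F s w) = 0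

/-- `F` is a smooth Lagrangian parametrization of an open neighbourhood of `z = F 0` in `Λ`: an
injective smooth immersion which is open as a map to `Λ` and pulls back `dp ∧ dq` to zero -/
def IsParam {n : ℕ} (Λ : Set (EuclideanSpace ℝ (Fin n) × EuclideanSpace ℝ (Fin n)))
    (z : EuclideanSpace ℝ (Fin n) × EuclideanSpace ℝ (Fin n))
    (F : EuclideanSpace ℝ (Fin n) → EuclideanSpace ℝ (Fin n) × EuclideanSpace ℝ (Fin n)) : Prop :=
  F 0 = z ∧ IsInjImmersion F ∧ IsIsotropic F ∧
    ∀ V : Set (EuclideanSpace ℝ (Fin n)), IsOpen V → ∃ U, IsOpen U ∧ F '' V = Λ ∩ U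

/-- `Λ ⊆ ℝⁿ × ℝⁿ` is the preimage of a nonempty compact Lagrangian submanifold without boundary of
the cotangent bundle `ℝⁿ/ℤⁿ × ℝⁿ` of the torus: it is closed, invariant under the translations
`(q, p) ↦ (q + k, p)`, bounded in `p`, and has a Lagrangian parametrization near every point. -/
structure IsLagrangianLift (n : ℕ) (Λ : Set (EuclideanSpace ℝ (Fin n) × EuclideanSpace ℝ (Fin n))) :
    Prop where
  closed : IsClosed Λ
  nonempty : Λ.Nonempty
  per : ∀ z ∈ Λ, ∀ k : Fin n → ℤ, (z.1 + latt k, z.2) ∈ Λ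
  bdd : ∃ R : ℝ, ∀ z ∈ Λ, ‖z.2‖ ≤ R
  par : ∀ z ∈ Λ, ∃ F, IsParam Λ z F

/-- the Lagrangian submanifold is exact: the form `p dq` has a smooth primitive `h` on it, that is a
function `h` on `Λ` invariant under the translations `(q, p) ↦ (q + k, p)` such that for every
smooth map `F : ℝⁿ → ℝⁿ × ℝⁿ` with values in `Λ` the function `h ∘ F` is smooth with the derivative
`⟨p, dq⟩` along `F`. (The values of `h` outside `Λ` are irrelevant.) -/
def IsExact {n : ℕ} (Λ : Set (EuclideanSpace ℝ (Fin n) × EuclideanSpace ℝ (Fin n))) : Prop :=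
  ∃ h : EuclideanSpace ℝ (Fin n) × EuclideanSpace ℝ (Fin n) → ℝ,
    (∀ z ∈ Λ, ∀ k : Fin n → ℤ, h (z.1 + latt k, z.2) = h z) ∧
    ∀ F : EuclideanSpace ℝ (Fin n) → EuclideanSpace ℝ (Fin n) × EuclideanSpace ℝ (Fin n),
      ContDiff ℝ ∞ F → (∀ s, F s ∈ Λ) → ContDiff ℝ ∞ (fun s => h (F s)) ∧
        ∀ s v, fderiv ℝ (fun s => h (F s)) s v = ⟪(F s).2, (fderiv ℝ F s v).1⟫

/-- the projection `(q, p) ↦ q` is injective on a neighbourhood of `z` in `Λ` -/
def LocallyInjectiveAt {n : ℕ} (Λ : Set (EuclideanSpace ℝ (Fin n) × EuclideanSpace ℝ (Fin n)))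
    (z : EuclideanSpace ℝ (Fin n) × EuclideanSpace ℝ (Fin n)) : Prop :=
  ∃ U : Set (EuclideanSpace ℝ (Fin n) × EuclideanSpace ℝ (Fin n)), IsOpen U ∧ z ∈ U ∧
    InjOn Prod.fst (Λ ∩ U)

/-- the projection `(q, p) ↦ q` of `Λ` has rank at least `n - 1` at `z`: its kernel on the tangent
space, in a parametrization, is contained in a line -/
def CorankLeOneAt {n : ℕ} (Λ : Set (EuclideanSpace ℝ (Fin n) × EuclideanSpace ℝ (Fin n)))
    (z : EuclideanSpace ℝ (Fin n) × EuclideanSpace ℝ (Fin n)) : Prop :=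
  ∃ F, IsParam Λ z F ∧ ∃ e : EuclideanSpace ℝ (Fin n), ∀ v, (fderiv ℝ F 0 v).1 = 0 →
    ∃ c : ℝ, v = c • e

/-- the one-sided condition at `z` with the sign `σ`: for pairs of points `(q, p)`, `(q', p')` of
`Λ` near `z` whose difference is almost vertical the angle between `q - q'` and `σ (p - p')` is at
most `120` degrees -/
def OneSidedAt {n : ℕ} (Λ : Set (EuclideanSpace ℝ (Fin n) × EuclideanSpace ℝ (Fin n))) (σ : ℝ)
    (z : EuclideanSpace ℝ (Fin n) × EuclideanSpace ℝ (Fin n)) : Prop :=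
  ∃ δ > 0, ∀ x ∈ Λ, ∀ y ∈ Λ, ‖x - z‖ < δ → ‖y - z‖ < δ → ‖x.1 - y.1‖ ≤ δ * ‖x.2 - y.2‖ →
    -(1 / 2) * (‖x.1 - y.1‖ * ‖x.2 - y.2‖) ≤ σ * ⟪x.1 - y.1, x.2 - y.2⟫

/-- `S` is the preimage of a closed subset of the Lagrangian submanifold -/
def IsClosedPart {n : ℕ} (Λ S : Set (EuclideanSpace ℝ (Fin n) × EuclideanSpace ℝ (Fin n))) : Prop :=
  S ⊆ Λ ∧ IsClosed S ∧ ∀ z ∈ S, ∀ k : Fin n → ℤ, (z.1 + latt k, z.2) ∈ S

/-- `ψ` and its inverse are smooth -/
def IsSmoothDiffeo {n : ℕ} (ψ : EuclideanSpace ℝ (Fin n) × EuclideanSpace ℝ (Fin n) ≃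
    EuclideanSpace ℝ (Fin n) × EuclideanSpace ℝ (Fin n)) : Prop :=
  ContDiff ℝ ∞ ψ ∧ ContDiff ℝ ∞ ψ.symm

/-- `ψ` preserves the symplectic form -/
def PreservesForm {n : ℕ} (ψ : EuclideanSpace ℝ (Fin n) × EuclideanSpace ℝ (Fin n) ≃
    EuclideanSpace ℝ (Fin n) × EuclideanSpace ℝ (Fin n)) : Prop :=
  ∀ z a b, om (fderiv ℝ ψ z a) (fderiv ℝ ψ z b) = om a b

/-- A closed exact Lagrangian submanifold of the cotangent bundle of the torus is the image of the
zero section under a symplectic diffeomorphism if its projection to the torus is near every point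
injective and of rank at least `n - 1`, except on two disjoint closed sets `P` and `N` (possibly
empty) where there are the one-sided conditions with the signs `+` and `-` instead. -/
theorem result (n : ℕ) (Λ : Set (EuclideanSpace ℝ (Fin n) × EuclideanSpace ℝ (Fin n)))
    (hΛ : IsLagrangianLift n Λ) (hE : IsExact Λ)
    (P N : Set (EuclideanSpace ℝ (Fin n) × EuclideanSpace ℝ (Fin n)))
    (hP : IsClosedPart Λ P) (hN : IsClosedPart Λ N) (hPN : Disjoint P N)
    (hP1 : ∀ z ∈ P, OneSidedAt Λ 1 z) (hN1 : ∀ z ∈ N, OneSidedAt Λ (-1) z)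
    (hC : ∀ z ∈ Λ, z ∉ P → z ∉ N → LocallyInjectiveAt Λ z ∧ CorankLeOneAt Λ z) :
    ∃ ψ : EuclideanSpace ℝ (Fin n) × EuclideanSpace ℝ (Fin n) ≃
        EuclideanSpace ℝ (Fin n) × EuclideanSpace ℝ (Fin n),
      IsSmoothDiffeo ψ ∧ PreservesForm ψ ∧
      (∀ z k, ψ (z.1 + latt k, z.2) = ((ψ z).1 + latt k, (ψ z).2)) ∧
      ψ '' {z | z.2 = 0} = Λ := by
  have hpar : ∀ z F, IsParam Λ z F → Run7.h7.Lag.Chart Λ z F := by
    rintro z F ⟨f1, ⟨f2, f3, f4⟩, f5, f6⟩
    exact ⟨f2, f1, f3, f6, f4, f5⟩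
  have hlag : Pool.Agent.Y522.ML.LagT n Λ :=
    ⟨hΛ.closed, hΛ.nonempty, hΛ.per, hΛ.bdd, fun z hz => by
      obtain ⟨F, f1, ⟨f2, f3, f4⟩, f5, f6⟩ := hΛ.par z hz
      exact ⟨F, f2, f1, f3, f6, f4, f5⟩⟩
  obtain ⟨h, hh⟩ := hE
  obtain ⟨ψ, h1, h2, h3, h4, h5⟩ := Run7.h7.Lag.corank_one hlag (h := h) hh
    hP.2.1 hN.2.1 hP.2.2 hN.2.2 hPN hP.1 hN.1 hP1 hN1
    (fun z hz g1 g2 => by
      obtain ⟨U, hU, hzU, hi⟩ := (hC z hz g1 g2).1
      obtain ⟨δ, hδ, hb⟩ := Metric.isOpen_iff.1 hU z hzU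
      refine ⟨δ, hδ, fun x hx y hy hxd hyd he => hi ⟨hx, hb ?_⟩ ⟨hy, hb ?_⟩ he⟩
      · rw [Metric.mem_ball, dist_eq_norm]
        exact hxd
      · rw [Metric.mem_ball, dist_eq_norm]
        exact hyd)
    (fun z hz g1 g2 => by
      obtain ⟨F, hF, e, he⟩ := (hC z hz g1 g2).2
      exact ⟨F, hpar z F hF, e, he⟩)
  exact ⟨ψ, ⟨h1, h2⟩, h4, h3, h5⟩

end Pool.Agent.Results.MP_3dbb84_gt.CorankOneProjections
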