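import Pool.Agent.Run7.h60.LagT

/-!
# MP_3dbb84_gt, Q1: Lagrangian submanifolds of the cotangent bundles of closed flat manifolds which
are transverse to a linear foliation

Q1 asks whether every closed exact Lagrangian submanifold `L` of the cotangent bundle of a closed
manifold `N` is the image of the zero section under a symplectic diffeomorphism.  The theorem
settles it for the closed flat manifolds `N = ℝⁿ/Γ` (for instance for the torus) and for all `L`
which are transverse to the foliation of `T*N` by the leaves `q + k(p) = const`, where `k` is any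
linear map commuting with the linear parts of the elements of `Γ`, or, more generally, any smooth
equivariant map for which the form `Σ dkᵢ ∧ dpᵢ` has constant coefficients.  The leaves need not be
Lagrangian; they are symplectic if the form is nondegenerate.  The preimage of `L` in `T*ℝⁿ` is
supposed to be connected, which is known to be the case for all exact `L`; neither exactness nor
any information about the topology of `L` is needed otherwise, and `L` need not be a graph.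

For the torus of dimension `2m` and an invertible antisymmetric `k`, the class contains the graphs
of all symplectic diffeomorphisms of `ℝ²ᵐ/ℤ²ᵐ` homotopic to the identity.

The method: `L` is parametrised by the space of leaves, `Λ = {(x - k(u(x)), u(x))}`; with the
constant antisymmetric part `A` of the derivative of `k` and `h = k - A`, the map
`ψ(q, p) = (q - A u(q - A p) - h(p + u(q - A p)), p + u(q - A p))`
is symplectic, and it is invertible since `y ↦ y - 2 A u(y)` is a diffeomorphism.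
-/

set_option autoImplicit false

open Set Function
open scoped ContDiff RealInnerProductSpace

noncomputable section

namespace Pool.Agent.Results.MP_3dbb84_gt.TransverseToLinearFoliations

/-- Euclidean space `ℝⁿ` -/
abbrev E (n : ℕ) := EuclideanSpace ℝ (Fin n)

/-- the points `(q, p)` of the cotangent bundle `ℝⁿ × ℝⁿ` of `ℝⁿ`, and the vectors -/
abbrev T (n : ℕ) := E n × E n

/-- the symplectic form `dp ∧ dq` of `T*ℝⁿ = ℝⁿ × ℝⁿ` -/
def om {n : ℕ} (a b : T n) : ℝ := ⟪a.2, b.1⟫ - ⟪b.2, a.1⟫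

/-- `F` is smooth -/
def Smooth {V W : Type} [NormedAddCommGroup V] [NormedSpace ℝ V] [NormedAddCommGroup W]
    [NormedSpace ℝ W] (F : V → W) : Prop :=
  ContDiff ℝ ∞ F

/-- the derivative of `F` at `s` in the direction of `v` -/
def dd {V W : Type} [NormedAddCommGroup V] [NormedSpace ℝ V] [NormedAddCommGroup W]
    [NormedSpace ℝ W] (F : V → W) (s v : V) : W :=
  fderiv ℝ F s v

/-- the isometry `x ↦ O x + b` of `ℝⁿ` -/
structure Isom (n : ℕ) where
  O : E n → E n
  b : E n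
  linear : IsLinearMap ℝ O
  norm : ∀ v, ‖O v‖ = ‖v‖

/-- the action `(q, p) ↦ (O q + b, O p)` of the isometry `γ`, `x ↦ O x + b`, on `T*ℝⁿ` -/
def act {n : ℕ} (γ : Isom n) (z : T n) : T n := (γ.O z.1 + γ.b, γ.O z.2)

/-- `F : ℝⁿ → ℝⁿ × ℝⁿ` is an injective smooth immersion -/
def IsInjImmersion {n : ℕ} (F : E n → T n) : Prop :=
  Smooth F ∧ Injective F ∧ ∀ s v, dd F s v = 0 → v = 0

/-- `F` pulls back `dp ∧ dq` to zero -/
def IsIsotropic {n : ℕ} (F : E n → T n) : Prop := ∀ s v w, om (dd F s v) (dd F s w) = 0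

/-- `F` is open as a map to `Λ` -/
def IsOpenTo {n : ℕ} (F : E n → T n) (Λ : Set (T n)) : Prop :=
  ∀ V, IsOpen V → ∃ U, IsOpen U ∧ F '' V = Λ ∩ U

/-- `Λ ⊆ ℝⁿ × ℝⁿ` is the preimage of a nonempty compact Lagrangian submanifold without boundary of
the cotangent bundle of the closed flat manifold `ℝⁿ/Γ`: it is closed, invariant under `Γ`, bounded
in `p`, and every point `z` of `Λ` is `F 0` for an injective smooth immersion `F : ℝⁿ → ℝⁿ × ℝⁿ`
which is open as a map to `Λ` and pulls back `dp ∧ dq` to zero. -/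
structure IsLagrangianLift {n : ℕ} (Γ : Set (Isom n)) (Λ : Set (T n)) : Prop where
  closed : IsClosed Λ
  nonempty : Λ.Nonempty
  inv : ∀ γ ∈ Γ, ∀ z ∈ Λ, act γ z ∈ Λ
  bdd : ∃ R : ℝ, ∀ z ∈ Λ, ‖z.2‖ ≤ R
  par : ∀ z ∈ Λ, ∃ F, F 0 = z ∧ IsInjImmersion F ∧ IsIsotropic F ∧ IsOpenTo F Λ

/-- the form `Σ dkᵢ ∧ dpᵢ` at the point `p` of `ℝⁿ` -/
def skewForm {n : ℕ} (k : E n → E n) (p v w : E n) : ℝ := ⟪dd k p v, w⟫ - ⟪v, dd k p w⟫

/-- the foliation by the leaves `q + k(p) = const`: `k` is smooth, commutes with the linear parts of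
the elements of `Γ`, and the form `Σ dkᵢ ∧ dpᵢ` has constant coefficients -/
structure IsLinearFoliation {n : ℕ} (Γ : Set (Isom n)) (k : E n → E n) : Prop where
  smooth : Smooth k
  equiv : ∀ γ ∈ Γ, ∀ p, k (γ.O p) = γ.O (k p)
  const : ∀ p v w, skewForm k p v w = skewForm k 0 v w

/-- `a` is the velocity at `z` of a smooth curve in `Λ` -/
def IsTangent {n : ℕ} (Λ : Set (T n)) (z a : T n) : Prop :=
  ∃ c : ℝ → T n, Smooth c ∧ c 0 = z ∧ (∀ t, c t ∈ Λ) ∧ dd c 0 1 = a

/-- `Λ` is transverse to the leaves `q + k(p) = const`: no nonzero tangent vector of `Λ` is tangent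
to a leaf -/
def IsTransverse {n : ℕ} (k : E n → E n) (Λ : Set (T n)) : Prop :=
  ∀ z ∈ Λ, ∀ a, IsTangent Λ z a → a.1 + dd k z.2 a.2 = 0 → a = 0

/-- `ψ` preserves the symplectic form -/
def PreservesForm {n : ℕ} (ψ : T n → T n) : Prop := ∀ z a b, om (dd ψ z a) (dd ψ z b) = om a b

/-- Closed Lagrangian submanifolds of the cotangent bundle of a closed flat manifold, with connected
preimages in `T*ℝⁿ`, which are transverse to a linear foliation, are images of the zero section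
under symplectic diffeomorphisms. -/
theorem result (n : ℕ) (Γ : Set (Isom n)) (Λ : Set (T n))
    (hΛ : IsLagrangianLift Γ Λ) (hc : IsConnected Λ)
    (k : E n → E n) (hk : IsLinearFoliation Γ k) (hT : IsTransverse k Λ) :
    ∃ ψ : T n ≃ T n, Smooth ψ ∧ Smooth ψ.symm ∧ PreservesForm ψ ∧
      (∀ γ ∈ Γ, ∀ z, ψ (act γ z) = act γ (ψ z)) ∧ ψ '' {z | z.2 = 0} = Λ := by
  classical
  obtain ⟨Γ', hΓ'⟩ : ∃ Γ' : Set ((E n → E n) × E n),
      Γ' = (fun γ : Isom n => (γ.O, γ.b)) '' Γ := ⟨_, rfl⟩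
  have hL : Pool.Agent.Run7.h60.Lag.LagT Γ' Λ := by
    refine ⟨hΛ.closed, hΛ.nonempty, ?_, hΛ.bdd, ?_⟩
    · rw [hΓ']
      rintro _ ⟨γ, hγ, rfl⟩ z hz
      exact hΛ.inv γ hγ z hz
    · intro z hz
      obtain ⟨F, h1, ⟨h2, -, h3⟩, h4, h5⟩ := hΛ.par z hz
      exact ⟨F, h2, h1, h5, h3, h4⟩
  obtain ⟨D, hD⟩ : ∃ D : E n →L[ℝ] E n, D = fderiv ℝ k 0 := ⟨_, rfl⟩
  have hks : ContDiff ℝ ∞ k := hk.smooth
  have hkd : ∀ p, HasFDerivAt k (fderiv ℝ k p) p := fun p =>
    ((hks.differentiable (by simp)).differentiableAt).hasFDerivAt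
  obtain ⟨A, hAd⟩ : ∃ A : E n →L[ℝ] E n,
      A = (1 / 2 : ℝ) • (D - ContinuousLinearMap.adjoint D) := ⟨_, rfl⟩
  have hAi : ∀ v w, ⟪A v, w⟫ = (1 / 2) * (⟪D v, w⟫ - ⟪v, D w⟫) := by
    intro v w
    rw [hAd]
    show ⟪(1 / 2 : ℝ) • (D v - ContinuousLinearMap.adjoint D v), w⟫ = _
    rw [real_inner_smul_left, inner_sub_left, ContinuousLinearMap.adjoint_inner_left]
  have hAi' : ∀ v w, ⟪v, A w⟫ = (1 / 2) * (⟪v, D w⟫ - ⟪D v, w⟫) := by
    intro v w
    rw [real_inner_comm, hAi, real_inner_comm, real_inner_comm (D v)]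
  have hA : ∀ v w, ⟪A v, w⟫ = -⟪v, A w⟫ := by
    intro v w
    rw [hAi, hAi']
    ring
  have hlin : ∀ γ : Isom n, ∃ L : E n →ₗᵢ[ℝ] E n, ∀ v, L v = γ.O v := fun γ =>
    ⟨⟨γ.linear.mk' _, γ.norm⟩, fun _ => rfl⟩
  have hinner : ∀ (γ : Isom n) v w, ⟪γ.O v, γ.O w⟫ = ⟪v, w⟫ := by
    intro γ v w
    obtain ⟨L, hLO⟩ := hlin γ
    rw [← hLO, ← hLO, LinearIsometry.inner_map_map]
  have hsurj : ∀ γ : Isom n, Surjective γ.O := by
    intro γ
    obtain ⟨L, hLO⟩ := hlin γ
    have h1 : Surjective L.toLinearMap := LinearMap.injective_iff_surjective.1 L.injective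
    intro y
    obtain ⟨x, hx⟩ := h1 y
    exact ⟨x, (hLO x).symm.trans hx⟩
  have hDO : ∀ γ ∈ Γ, ∀ v, D (γ.O v) = γ.O (D v) := by
    intro γ hγ v
    obtain ⟨L, hLO⟩ := hlin γ
    have h1 : HasFDerivAt (fun p => k (L p)) (D.comp L.toContinuousLinearMap) 0 := by
      have g2 : HasFDerivAt k D (L.toContinuousLinearMap 0) := by
        rw [map_zero, hD]
        exact hkd 0
      exact g2.comp 0 L.toContinuousLinearMap.hasFDerivAt
    have h2 : HasFDerivAt (fun p => L (k p)) (L.toContinuousLinearMap.comp D) 0 := by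
      have g1 := hkd 0
      rw [← hD] at g1
      exact (L.toContinuousLinearMap.hasFDerivAt).comp 0 g1
    have h3 : (fun p => k (L p)) = fun p => L (k p) :=
      funext fun p => by rw [hLO, hLO, hk.equiv γ hγ]
    rw [h3] at h1
    have h4 := congrArg (fun B : E n →L[ℝ] E n => B v) (h1.unique h2)
    have h5 : D (L v) = L (D v) := h4
    rw [hLO, hLO] at h5
    exact h5
  have hAO : ∀ γ ∈ Γ, ∀ v, A (γ.O v) = γ.O (A v) := by
    intro γ hγ v
    refine ext_inner_right ℝ fun w => ?_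
    obtain ⟨w, rfl⟩ := hsurj γ w
    rw [hAi, hDO γ hγ, hDO γ hγ, hinner, hinner, hinner, hAi]
  have hhd : ∀ p, HasFDerivAt (fun p => k p - A p) (fderiv ℝ k p - A) p := fun p =>
    (hkd p).sub A.hasFDerivAt
  have hsub : ∀ p v, fderiv ℝ (fun p => k p - A p) p v + A v = fderiv ℝ k p v := by
    intro p v
    rw [(hhd p).fderiv]
    show fderiv ℝ k p v - A v + A v = _
    rw [sub_add_cancel]
  obtain ⟨ψ, h1, h2, h3, h4, h5⟩ := Pool.Agent.Run7.h60.Lag.mainC (Γ := Γ')
    (by
      rw [hΓ']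
      rintro _ ⟨γ, -, rfl⟩ v w
      exact γ.linear.map_add v w)
    hL hc.isPreconnected (fun p => k p - A p) (hks.sub A.contDiff)
    (by
      intro p v w
      rw [(hhd p).fderiv]
      show ⟪fderiv ℝ k p v - A v, w⟫ = ⟪v, fderiv ℝ k p w - A w⟫
      rw [inner_sub_left, inner_sub_right, hAi, hAi', hD]
      have h0 : ⟪fderiv ℝ k p v, w⟫ - ⟪v, fderiv ℝ k p w⟫ =
        ⟪fderiv ℝ k 0 v, w⟫ - ⟪v, fderiv ℝ k 0 w⟫ := hk.const p v w
      linarith)
    A hA
    (by
      rw [hΓ']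
      rintro _ ⟨γ, hγ, rfl⟩ p
      show k (γ.O p) - A (γ.O p) = γ.O (k p - A p)
      rw [hk.equiv γ hγ, hAO γ hγ, γ.linear.map_sub])
    (by
      rw [hΓ']
      rintro _ ⟨γ, hγ, rfl⟩ p
      exact hAO γ hγ p)
    (by
      intro z hz a ha he
      rw [hsub] at he
      refine hT z hz a ?_ he
      obtain ⟨c, c1, c2, c3, c4⟩ := ha
      refine ⟨c, c1, c2, c3, ?_⟩
      rw [← c4]
      exact fderiv_apply_one_eq_deriv)
  refine ⟨ψ, h1, h2, h4, fun γ hγ z => ?_, h5⟩
  exact h3 (γ.O, γ.b) (by rw [hΓ']; exact ⟨γ, hγ, rfl⟩) z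

end Pool.Agent.Results.MP_3dbb84_gt.TransverseToLinearFoliations
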